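import Pool.Agent.helper87.FM.Spec

set_option autoImplicit false

namespace Pool.Agent.FM

open Polynomial Matrix Pool.Agent.helper42.NS Pool.Agent.FS

theorem R1D_arith (a τ N t : ℕ) (ha : 4 ≤ a) (hτ : τ = 2 ^ (7 * a)) (ht : 2 ^ (10 * a - 1) ≤ t)
    (hN : τ + N = t) : 11 * a + ((10 * a + 10) * τ + τ + (14 * a + 1)) ≤ N / 2 := by
  have h1 : 2 ^ (10 * a - 1) = τ * (2 * 2 ^ (3 * a - 2)) := by
    rw [hτ, ← pow_succ', ← pow_add]
    congr 1
    omega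
  have h2 : 10 * a + 14 ≤ 2 ^ (3 * a - 2) := by
    obtain ⟨b, rfl⟩ : ∃ b, a = b + 4 := ⟨a - 4, by omega⟩
    have e : 3 * (b + 4) - 2 = 3 * b + 10 := by omega
    rw [e, pow_add, pow_mul]
    have h3 : b + 1 ≤ (2 ^ 3) ^ b := by
      have := (Nat.lt_pow_self (show 1 < 2 ^ 3 by norm_num) : b < (2 ^ 3) ^ b)
      omega
    nlinarith
  have h3 : 25 * a + 2 ≤ τ := by
    obtain ⟨b, rfl⟩ : ∃ b, a = b + 4 := ⟨a - 4, by omega⟩
    have e : 7 * (b + 4) = 7 * b + 28 := by omega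
    rw [hτ, e, pow_add, pow_mul]
    have h3 : b + 1 ≤ (2 ^ 7) ^ b := by
      have := (Nat.lt_pow_self (show 1 < 2 ^ 7 by norm_num) : b < (2 ^ 7) ^ b)
      omega
    nlinarith
  have h4 : τ * (2 * (10 * a + 14)) ≤ τ * (2 * 2 ^ (3 * a - 2)) :=
    Nat.mul_le_mul_left τ (Nat.mul_le_mul_left 2 h2)
  rw [Nat.le_div_iff_mul_le (by norm_num)]
  nlinarith

theorem R1D : R1D_stmt := by
  classical
  have h1 : Pool.Agent.helper42.NS.FIN_stmt := Pool.Agent.helper42.NS.FIN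
  have h2 : Pool.Agent.helper42.NS.TAL_stmt := T_TAL
  intro a t ha ht1 ht2
  obtain ⟨τ, hτ⟩ : ∃ τ, τ = 2 ^ (7 * a) := ⟨_, rfl⟩
  have hτt : τ ≤ t := by
    rw [hτ]
    exact (Nat.pow_le_pow_right (by norm_num) (by omega)).trans ht1
  obtain ⟨N, hN⟩ : ∃ N, τ + N = t := ⟨t - τ, by omega⟩
  have hT : (R1C_T N τ).ncard * 2 ^ (N / 2) ≤ 2 ^ (N * τ) * (2 ^ τ * (τ ^ 2 + 1)) := h2 N τ
  have hB : ∀ S ∈ Finset.powersetCard τ (Finset.univ : Finset (Fin t)),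
      (R1C_B S).ncard * 2 ^ (N / 2) ≤ 2 ^ (t.choose 2) * (2 ^ τ * (τ ^ 2 + 1)) := by
    intro S hS
    have h3 := R1C_BT S τ N (Finset.mem_powersetCard.1 hS).2 hN
    have h4 : (R1C_B S).ncard * 2 ^ (N / 2) * 2 ^ (N * τ) ≤
        2 ^ (t.choose 2) * (2 ^ τ * (τ ^ 2 + 1)) * 2 ^ (N * τ) := by
      calc (R1C_B S).ncard * 2 ^ (N / 2) * 2 ^ (N * τ)
          = (R1C_B S).ncard * 2 ^ (N * τ) * 2 ^ (N / 2) := by ring
        _ ≤ 2 ^ (t.choose 2) * (R1C_T N τ).ncard * 2 ^ (N / 2) := Nat.mul_le_mul_right _ h3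
        _ = 2 ^ (t.choose 2) * ((R1C_T N τ).ncard * 2 ^ (N / 2)) := by ring
        _ ≤ 2 ^ (t.choose 2) * (2 ^ (N * τ) * (2 ^ τ * (τ ^ 2 + 1))) := Nat.mul_le_mul_left _ hT
        _ = _ := by ring
    exact Nat.le_of_mul_le_mul_right h4 (by positivity)
  have hcnt : cnt t (fun H => ¬ R1 a H) ≤
      ∑ S ∈ Finset.powersetCard τ (Finset.univ : Finset (Fin t)), (R1C_B S).ncard := by
    unfold cnt
    have hcov := R1C_cover h1 a t (by rw [← hτ]; exact hτt)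
    rw [← hτ] at hcov
    refine (Set.ncard_le_ncard hcov ?_).trans (Finset.set_ncard_biUnion_le _ _)
    refine (CNT_fin t).subset ?_
    intro H hH
    rw [Set.mem_iUnion₂] at hH
    obtain ⟨S, -, hS⟩ := hH
    exact hS.1
  have hchoose : (Finset.powersetCard τ (Finset.univ : Finset (Fin t))).card ≤ 2 ^ ((10 * a + 10) * τ) := by
    rw [Finset.card_powersetCard, Finset.card_univ, Fintype.card_fin]
    refine (Nat.choose_le_pow t τ).trans ?_
    rw [pow_mul]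
    exact Nat.pow_le_pow_left ht2 τ
  have hτ2 : τ ^ 2 + 1 ≤ 2 ^ (14 * a + 1) := by
    have e : τ ^ 2 = 2 ^ (14 * a) := by
      rw [hτ, ← pow_mul]
      congr 1
      ring
    rw [e, pow_succ]
    have : 1 ≤ 2 ^ (14 * a) := Nat.one_le_two_pow
    omega
  have hmain : cnt t (fun H => ¬ R1 a H) * 2 ^ (N / 2) ≤
      2 ^ (t.choose 2) * 2 ^ ((10 * a + 10) * τ + τ + (14 * a + 1)) := by
    calc cnt t (fun H => ¬ R1 a H) * 2 ^ (N / 2)
        ≤ (∑ S ∈ Finset.powersetCard τ (Finset.univ : Finset (Fin t)), (R1C_B S).ncard) *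
            2 ^ (N / 2) := Nat.mul_le_mul_right _ hcnt
      _ = ∑ S ∈ Finset.powersetCard τ (Finset.univ : Finset (Fin t)),
            (R1C_B S).ncard * 2 ^ (N / 2) := Finset.sum_mul _ _ _
      _ ≤ ∑ S ∈ Finset.powersetCard τ (Finset.univ : Finset (Fin t)),
            2 ^ (t.choose 2) * (2 ^ τ * (τ ^ 2 + 1)) := Finset.sum_le_sum hB
      _ = (Finset.powersetCard τ (Finset.univ : Finset (Fin t))).card *
            (2 ^ (t.choose 2) * (2 ^ τ * (τ ^ 2 + 1))) := by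
          rw [Finset.sum_const, smul_eq_mul]
      _ ≤ 2 ^ ((10 * a + 10) * τ) * (2 ^ (t.choose 2) * (2 ^ τ * 2 ^ (14 * a + 1))) := by
          refine Nat.mul_le_mul hchoose (Nat.mul_le_mul_left _ (Nat.mul_le_mul_left _ hτ2))
      _ = 2 ^ (t.choose 2) * 2 ^ ((10 * a + 10) * τ + τ + (14 * a + 1)) := by
          rw [pow_add, pow_add]
          ring
  have har := R1D_arith a τ N t (by omega) hτ ht1 hN
  have hfin : cnt t (fun H => ¬ R1 a H) * 2 ^ (11 * a) * 2 ^ (N / 2) ≤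
      2 ^ (t.choose 2) * 2 ^ (N / 2) := by
    calc cnt t (fun H => ¬ R1 a H) * 2 ^ (11 * a) * 2 ^ (N / 2)
        = cnt t (fun H => ¬ R1 a H) * 2 ^ (N / 2) * 2 ^ (11 * a) := by ring
      _ ≤ 2 ^ (t.choose 2) * 2 ^ ((10 * a + 10) * τ + τ + (14 * a + 1)) * 2 ^ (11 * a) :=
          Nat.mul_le_mul_right _ hmain
      _ = 2 ^ (t.choose 2) * 2 ^ (11 * a + ((10 * a + 10) * τ + τ + (14 * a + 1))) := by
          rw [pow_add 2 (11 * a)]
          ring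
      _ ≤ 2 ^ (t.choose 2) * 2 ^ (N / 2) :=
          Nat.mul_le_mul_left _ (Nat.pow_le_pow_right (by norm_num) har)
  exact Nat.le_of_mul_le_mul_right hfin (by positivity)

end Pool.Agent.FM
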